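import Pool.Agent.Y133.BK.KLaw
import Pool.Agent.Y133.AJ.Core

/-!
# Constructions with modules over the correspondences; the ratio law
-/

set_option linter.unusedSectionVars false

open CategoryTheory AlgebraicGeometry TensorProduct Filter Topology

open scoped ENNReal

universe u v w x y

namespace Pool.Agent.Y133.BK

open Pool.Agent.H914 Pool.Agent.H914.VarClass Pool.Agent.H914.VarClass.Obj
  Pool.Agent.H914.WeilCohomology Pool.Agent.W492.BB Pool.Agent.Y129 Pool.Agent.TH133
  Pool.Agent.H281R3.HT Pool.Agent.Y133.Chow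
open Pool.Agent.Y133.AJ (IsSys infinite_of_not_nil_sys)
open Pool.Agent.W550.Corr (dg comp_eq_extR comp_dg dg_comp comp_assoc compL compL_apply HasIso
  push_model act_dg extR_graph)

variable {k : Type u} [Field k] {𝒱 : VarClass k} {ops : CycleOps 𝒱}
  {W : WeilCohomology.{u, v} ops} {C : TheoryData.{u, w, 0} 𝒱 ℚ} [hC : IsChowProj C]
  (c : ClassMap W C) (M : KMod.{u, v, w, x} W C) (M' : KMod.{u, v, w, y} W C) {X Y Z : 𝒱.Obj}

/-- A submodule. -/
noncomputable def KMod.sub (S : ∀ X, Submodule W.K (M.M X))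
    (hS : ∀ (X Y : 𝒱.Obj) (Γ : C.A (X.prod Y)), ∀ a ∈ S X, M.act Γ a ∈ S Y) :
    KMod.{u, v, w, x} W C where
  M X := S X
  act {X Y} :=
    { toFun := fun Γ => (M.act Γ).restrict (hS X Y Γ)
      map_zero' := LinearMap.ext fun a => Subtype.ext (by
        change M.act (0 : C.A (X.prod Y)) a.1 = 0
        rw [map_zero]; rfl)
      map_add' := fun Γ Δ => LinearMap.ext fun a => Subtype.ext (by
        change M.act (Γ + Δ) a.1 = M.act Γ a.1 + M.act Δ a.1
        rw [map_add]; rfl) }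
  act_comp Γ Δ a := Subtype.ext (M.act_comp Γ Δ a.1)
  act_dg X a := Subtype.ext (M.act_dg X a.1)

/-- A quotient. -/
noncomputable def KMod.quot (S : ∀ X, Submodule W.K (M.M X))
    (hS : ∀ (X Y : 𝒱.Obj) (Γ : C.A (X.prod Y)), ∀ a ∈ S X, M.act Γ a ∈ S Y) :
    KMod.{u, v, w, x} W C where
  M X := M.M X ⧸ S X
  act {X Y} :=
    { toFun := fun Γ => (S X).mapQ (S Y) (M.act Γ) (hS X Y Γ)
      map_zero' := by
        apply Submodule.linearMap_qext
        apply LinearMap.ext
        intro a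
        change (Submodule.Quotient.mk (M.act (0 : C.A (X.prod Y)) a) : M.M Y ⧸ S Y) = 0
        rw [map_zero]; rfl
      map_add' := fun Γ Δ => by
        apply Submodule.linearMap_qext
        apply LinearMap.ext
        intro a
        change (Submodule.Quotient.mk (M.act (Γ + Δ) a) : M.M Y ⧸ S Y) =
          Submodule.Quotient.mk (M.act Γ a) + Submodule.Quotient.mk (M.act Δ a)
        rw [map_add]; rfl }
  act_comp {X Y Z} Γ Δ a := by
    obtain ⟨a, rfl⟩ := Submodule.Quotient.mk_surjective _ a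
    change (Submodule.Quotient.mk (M.act (C.comp Γ Δ) a) : M.M Z ⧸ S Z) =
      Submodule.Quotient.mk (M.act Δ (M.act Γ a))
    rw [M.act_comp]
  act_dg X a := by
    obtain ⟨a, rfl⟩ := Submodule.Quotient.mk_surjective _ a
    change (Submodule.Quotient.mk (M.act (dg C X) a) : M.M X ⧸ S X) = Submodule.Quotient.mk a
    rw [M.act_dg]

/-- The product. -/
noncomputable def KMod.prod : KMod.{u, v, w, max x y} W C where
  M X := M.M X × M'.M X
  act {X Y} :=
    { toFun := fun Γ => (M.act Γ).prodMap (M'.act Γ)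
      map_zero' := LinearMap.ext fun a => Prod.ext
        (by change M.act (0 : C.A (X.prod Y)) a.1 = 0; rw [map_zero]; rfl)
        (by change M'.act (0 : C.A (X.prod Y)) a.2 = 0; rw [map_zero]; rfl)
      map_add' := fun Γ Δ => LinearMap.ext fun a => Prod.ext
        (by change M.act (Γ + Δ) a.1 = M.act Γ a.1 + M.act Δ a.1; rw [map_add]; rfl)
        (by change M'.act (Γ + Δ) a.2 = M'.act Γ a.2 + M'.act Δ a.2; rw [map_add]; rfl) }
  act_comp Γ Δ a := Prod.ext (M.act_comp Γ Δ a.1) (M'.act_comp Γ Δ a.2)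
  act_dg X a := Prod.ext (M.act_dg X a.1) (M'.act_dg X a.2)

/-- The extension of the coefficients. -/
noncomputable def KMod.base (L : Type v) [Field L] [Algebra W.K L] :
    KMod.{u, v, w, max v x} (baseW W L) C where
  M X := L ⊗[W.K] M.M X
  grp X := inferInstanceAs (AddCommGroup (L ⊗[W.K] M.M X))
  mod X := inferInstanceAs (Module L (L ⊗[W.K] M.M X))
  act {X Y} :=
    { toFun := fun Γ => ((M.act Γ).baseChange L : L ⊗[W.K] M.M X →ₗ[L] L ⊗[W.K] M.M Y)
      map_zero' := by
        have h1 : M.act (0 : C.A (X.prod Y)) = 0 := map_zero _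
        rw [h1]
        exact LinearMap.baseChange_zero
      map_add' := fun Γ Δ => by
        have h1 : M.act (Γ + Δ) = M.act Γ + M.act Δ := map_add _ _ _
        rw [h1]
        exact LinearMap.baseChange_add _ _ }
  act_comp {X Y Z} Γ Δ a := by
    have h1 : M.act (C.comp Γ Δ) = M.act Δ ∘ₗ M.act Γ := LinearMap.ext fun a => M.act_comp Γ Δ a
    change (M.act (C.comp Γ Δ)).baseChange L a = (M.act Δ).baseChange L ((M.act Γ).baseChange L a)
    rw [h1, LinearMap.baseChange_comp]
    rfl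
  act_dg X a := by
    have h1 : M.act (dg C X) = LinearMap.id := LinearMap.ext fun a => M.act_dg X a
    change (M.act (dg C X)).baseChange L a = a
    rw [h1, LinearMap.baseChange_id]
    rfl

/-! ### Retractions -/

lemma exists_retract (C : TheoryData.{u, w, 0} 𝒱 ℚ) [hC : IsChowProj C] (X Y : 𝒱.Obj) :
    ∃ Δ : C.A ((X.prod Y).prod Y), C.comp (C.cograph (snd X Y)) Δ = dg C Y := by
  obtain ⟨a, -, -, h2⟩ := exists_deg_one C X
  obtain ⟨b, hb⟩ : ∃ b, b = C.pull (fst X Y) a := ⟨_, rfl⟩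
  have h3 : C.push (snd X Y) b = 1 := by rw [hb, h2 Y]
  refine ⟨C.push (Obj.lift (𝟙 _) (snd X Y)) b, ?_⟩
  rw [comp_eq_extR, TheoryData.extR, C.base_snd, ← C.proj_right, ← C.push_comp, ← C.pull_comp]
  have e1 : prodMap (𝟙 Y) (Obj.lift (𝟙 (X.prod Y)) (snd X Y)) ≫ u12 Y (X.prod Y) Y = 𝟙 _ := by
    apply Pool.Agent.W550.Corr.prod_ext <;> simp [u12]
  have e2 : prodMap (𝟙 Y) (Obj.lift (𝟙 (X.prod Y)) (snd X Y)) ≫ u13 Y (X.prod Y) Y =
      prodMap (𝟙 Y) (snd X Y) := by
    apply Pool.Agent.W550.Corr.prod_ext <;> simp [u13]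
  rw [e1, e2, C.pull_id, TheoryData.cograph, ← C.proj_left, ← C.pull_comp, lift_snd, C.pull_id,
    mul_one, ← C.push_comp]
  have e3 : Obj.lift (snd X Y) (𝟙 (X.prod Y)) ≫ prodMap (𝟙 Y) (snd X Y) =
      snd X Y ≫ Obj.lift (𝟙 Y) (𝟙 Y) := by
    apply Pool.Agent.W550.Corr.prod_ext <;> simp
  rw [e3, C.push_comp, h3]
  rfl

lemma KMod.injective_cograph (X Y : 𝒱.Obj) :
    Function.Injective (M.act (C.cograph (snd X Y))) := by
  obtain ⟨Δ, hΔ⟩ := exists_retract C X Y
  have h1 : ∀ a : M.M Y, M.act Δ (M.act (C.cograph (snd X Y)) a) = a := by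
    intro a
    rw [← M.act_comp, hΔ, M.act_dg]
  intro a b hab
  rw [← h1 a, ← h1 b, hab]

lemma KMod.not_finite_succ {n : ℕ} (h : ¬ Module.Finite W.K (M.M (pw X n))) :
    ¬ Module.Finite W.K (M.M (pw X (n + 1))) := by
  intro h1
  have h2 : Module.Finite W.K (M.M (X.prod (pw X n))) := h1
  exact h (Module.Finite.of_injective _ (M.injective_cograph X (pw X n)))

end Pool.Agent.Y133.BK
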