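import Pool.Agent.Y133.Chow.HDefs

/-!
# Abel–Jacobi maps to Selmer groups: definitions
-/

open CategoryTheory AlgebraicGeometry Filter Topology

universe u v w x

namespace Pool.Agent.Y133.BK

section Alg

variable {K A A' B J J' : Type*} [Field K] [Ring A] [Algebra ℚ A] [Ring B] [AddCommGroup J]
  [Module K J] [AddCommGroup J'] [Module K J']

/-- The elements of `A` operate as `K`-linear maps from `J` to `J'`, additively. -/
def Operates (K : Type*) {A J J' : Type*} [Field K] [Ring A] [AddCommGroup J] [Module K J]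
    [AddCommGroup J'] [Module K J'] (r : A → J → J') : Prop :=
  (∀ a b x, r (a + b) x = r a x + r b x) ∧ ∀ a, IsLinearMap K (r a)

/-- The elements killed by `c` operate as zero. -/
def Kills (c : A →+* B) (r : A → J → J') : Prop := ∀ a x, c a = 0 → r a x = 0

/-- The map `r` maps `S` to `S'`. -/
def MapsSub (r : J → J') (S : Submodule K J) (S' : Submodule K J') : Prop := ∀ x ∈ S, r x ∈ S'

/-- The function `f` is additive on the elements killed by `c`. -/
def AddOn (c : A →+* B) (f : A → J) : Prop :=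
  ∀ x y, c x = 0 → c y = 0 → f (x + y) = f x + f y

/-- On the elements killed by `c`, the functions `f` and `f'` are compatible with the maps
`s : A → A'` and `r : J → J'`. -/
def CompatOn (c : A →+* B) (f : A → J) (f' : A' → J') (s : A → A') (r : J → J') : Prop :=
  ∀ x, c x = 0 → f' (s x) = r (f x)

/-- The elements `x i` are killed by `c` and linearly independent over `ℚ`. -/
def IndepIn (c : A →+* B) {n : ℕ} (x : Fin n → A) : Prop :=
  (∀ i, c (x i) = 0) ∧ LinearIndependent ℚ x

/-- The linear extension of `f` to `K ⊗ V`, where `V` is the space of the elements killed by `c`, is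
injective: `f` maps elements which are linearly independent over `ℚ` to elements which are linearly
independent over `K`. -/
def InjK (K : Type*) {A B J : Type*} [Field K] [Ring A] [Algebra ℚ A] [Ring B] [AddCommGroup J]
    [Module K J] (c : A →+* B) (f : A → J) : Prop :=
  ∀ (n : ℕ) (x : Fin n → A), IndepIn c x → LinearIndependent K fun i => f (x i)

/-- The dimension of the kernel of the linear extension of `f` to `K ⊗ V`: the supremum of the
numbers `n - dim ⟨f (x 1), …, f (x n)⟩` for linearly independent `x 1, …, x n` in `V`. -/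
noncomputable def nullK (K : Type*) {A B J : Type*} [Field K] [Ring A] [Algebra ℚ A] [Ring B]
    [AddCommGroup J] [Module K J] (c : A →+* B) (f : A → J) : ℕ∞ :=
  ⨆ (n : ℕ) (x : Fin n → A) (_ : IndepIn c x),
    ((n - Module.finrank K (Submodule.span K (Set.range fun i => f (x i))) : ℕ) : ℕ∞)

/-- The subspace spanned by the values of `f` on the elements killed by `c`. -/
def imK (K : Type*) {A B J : Type*} [Field K] [Ring A] [Ring B] [AddCommGroup J]
    [Module K J] (c : A →+* B) (f : A → J) : Submodule K J :=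
  Submodule.span K (f '' {x | c x = 0})

/-- The element `s (q y * p x)`. -/
def compVia {A₁ A₂ D E : Type*} [Ring A₁] [Algebra ℚ A₁] [Ring A₂] [Algebra ℚ A₂] [Ring D]
    [Algebra ℚ D] [Ring E] [Algebra ℚ E] (p : A₁ →ₐ[ℚ] D) (q : A₂ →ₐ[ℚ] D) (s : D →ₗ[ℚ] E)
    (x : A₁) (y : A₂) : E := s (q y * p x)

/-- The value of `s` at `1`. -/
def atOne {D E : Type*} [Ring D] [Algebra ℚ D] [Ring E] [Algebra ℚ E] (s : D →ₗ[ℚ] E) : E := s 1

/-- The dimension of `(S + T) / (S ∩ T)`. -/
noncomputable def distDim (S T : Submodule K J) : ℕ∞ :=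
  Cardinal.toENat (Module.rank K ((S ⊔ T).map (S ⊓ T).mkQ))

end Alg

open Pool.Agent.H914 Pool.Agent.H914.VarClass Pool.Agent.H914.VarClass.Obj
  Pool.Agent.H914.WeilCohomology Pool.Agent.W492.BB Pool.Agent.Y133.Chow

variable {k : Type u} [Field k] {𝒱 : VarClass k} {ops : CycleOps 𝒱}
  {W : WeilCohomology.{u, v} ops} {C : TheoryData.{u, w, 0} 𝒱 ℚ}

/-- The composition of correspondences: the push-forward to `X × Z` of the product of the
pull-backs to `X × Y × Z`. -/
noncomputable def comp3 (C : TheoryData.{u, w, 0} 𝒱 ℚ) {X Y Z : 𝒱.Obj} (Γ : C.A (X.prod Y))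
    (Δ : C.A (Y.prod Z)) : C.A (X.prod Z) :=
  compVia (C.pull (fst (X.prod Y) Z)) (C.pull (prodMap (snd X Y) (𝟙 Z)))
    (C.push (prodMap (fst X Y) (𝟙 Z))) Γ Δ

/-- The class of the diagonal. -/
noncomputable def dia (C : TheoryData.{u, w, 0} 𝒱 ℚ) (X : 𝒱.Obj) : C.A (X.prod X) :=
  atOne (C.push (Obj.lift (𝟙 X) (𝟙 X)))

/-- An Abel–Jacobi map with Selmer groups: vector spaces `J(X)` over the coefficient field (for
example the sum of the groups `H¹(K, H^(2i-1)(X)(i))`), on which the correspondences operate, the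
homologically trivial ones as zero, subspaces `Sel(X)` stable under correspondences, and additive
maps from the homologically trivial elements of `C(X)` to `J(X)` compatible with the
correspondences. (The values of `aj` are only used for homologically trivial elements.) -/
structure SelmerTheory (c : ClassMap W C) where
  /-- the target -/
  J : 𝒱.Obj → Type x
  [grp : ∀ X, AddCommGroup (J X)]
  [mod : ∀ X, Module W.K (J X)]
  /-- the Selmer group -/
  sel : ∀ X : 𝒱.Obj, Submodule W.K (J X)
  /-- the operation of a correspondence -/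
  corr : ∀ X Y : 𝒱.Obj, C.A (X.prod Y) → J X → J Y
  /-- the Abel–Jacobi map -/
  aj : ∀ X : 𝒱.Obj, C.A X → J X
  operates : ∀ X Y : 𝒱.Obj, Operates W.K (corr X Y)
  corr_id : ∀ (X : 𝒱.Obj) (a : J X), corr X X (dia C X) a = a
  corr_comp : ∀ (X Y Z : 𝒱.Obj) (Γ : C.A (X.prod Y)) (Δ : C.A (Y.prod Z)) (a : J X),
    corr X Z (comp3 C Γ Δ) a = corr Y Z Δ (corr X Y Γ a)
  corr_hom : ∀ X Y : 𝒱.Obj, Kills (c.cl (X.prod Y)) (corr X Y)
  corr_sel : ∀ (X Y : 𝒱.Obj) (Γ : C.A (X.prod Y)), MapsSub (corr X Y Γ) (sel X) (sel Y)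
  aj_add : ∀ X : 𝒱.Obj, AddOn (c.cl X) (aj X)
  aj_corr : ∀ (X Y : 𝒱.Obj) (Γ : C.A (X.prod Y)),
    CompatOn (c.cl X) (aj X) (aj Y) (C.act Γ) (corr X Y Γ)

attribute [instance] SelmerTheory.grp SelmerTheory.mod

variable {c : ClassMap W C}

/-- The span of the image of the Abel–Jacobi map of `X`. -/
def SelmerTheory.im (σ : SelmerTheory.{u, v, w, x} c) (X : 𝒱.Obj) : Submodule W.K (σ.J X) :=
  imK W.K (c.cl X) (σ.aj X)

/-- The dimension of the kernel of the Abel–Jacobi map of `X` with coefficients, plus the dimension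
of `(Sel + im) / (Sel ∩ im)`. -/
noncomputable def defect (σ : SelmerTheory.{u, v, w, x} c) (X : 𝒱.Obj) : ℕ∞ :=
  nullK W.K (c.cl X) (σ.aj X) + distDim (σ.im X) (σ.sel X)

/-- The Abel–Jacobi map of `X` with coefficients is injective and its image is the Selmer group. -/
def BlochKato (σ : SelmerTheory.{u, v, w, x} c) (X : 𝒱.Obj) : Prop :=
  InjK W.K (c.cl X) (σ.aj X) ∧ σ.im X = σ.sel X

end Pool.Agent.Y133.BK
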