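import Pool.Agent.Y133.BK.Defs

/-!
# Abel–Jacobi maps to Selmer groups for motives: definitions
-/

open CategoryTheory AlgebraicGeometry Filter Topology

open scoped ENNReal

universe u v w x

namespace Pool.Agent.Y133.BK

section Alg

variable {K A B D J : Type*} [Field K] [Ring A] [Algebra ℚ A] [Ring B] [Algebra K B]
  [Ring D] [Algebra K D] [AddCommGroup J] [Module K J]

/-- The quotients `b(n) / a(n)` converge to `N`. -/
def HasRatio (b : ℕ → ℕ∞) (a : ℕ → ℕ) (N : ℕ∞) : Prop :=
  Tendsto (fun n => (b n : ℝ≥0∞) / a n) atTop (𝓝 (N : ℝ≥0∞))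

/-- The dimension of the quotient of `A` by the span of the elements which are orthogonal to all
elements of `A`. -/
noncomputable def orthRank (tr : B →ₗ[K] K) (c : A →+* B) : ℕ :=
  Module.finrank ℚ (A ⧸ Submodule.span ℚ {x | Pool.Agent.Y133.Chow.Orth tr c x})

/-- The dimension of the span of the elements `s (g * p x)`. -/
noncomputable def opDim (p : B →ₐ[K] D) (s : D →ₗ[K] B) (g : D) : ℕ :=
  Module.finrank K (Submodule.span K (Set.range fun x => s (g * p x)))

/-- The linear extension of `f` to `K ⊗ V`, where `V` is the space of the elements `x` killed by `c`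
with `g x = x`, is injective. -/
def InjOnFixed (K : Type*) {A B J : Type*} [Field K] [Ring A] [Algebra ℚ A] [Ring B]
    [AddCommGroup J] [Module K J] (c : A →+* B) (g : A → A) (f : A → J) : Prop :=
  ∀ (n : ℕ) (x : Fin n → A), IndepIn c x → (∀ i, g (x i) = x i) →
    LinearIndependent K fun i => f (x i)

/-- The elements `y` of `S` and of `T` with `r y = y` are the same. -/
def EqOnFixed (r : J → J) (S T : Submodule K J) : Prop := ∀ y, r y = y → (y ∈ S ↔ y ∈ T)

end Alg

open Pool.Agent.H914 Pool.Agent.H914.VarClass Pool.Agent.H914.VarClass.Obj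
  Pool.Agent.H914.WeilCohomology Pool.Agent.W492.BB Pool.Agent.Y133.Chow
open Pool.Agent.Y129 (pw)

variable {k : Type u} [Field k] {𝒱 : VarClass k} {ops : CycleOps 𝒱}
  {W : WeilCohomology.{u, v} ops} {C : TheoryData.{u, w, 0} 𝒱 ℚ}

/-- The dimension of the space of cycles on `X` modulo numerical equivalence. -/
noncomputable def cycDim (c : ClassMap W C) (X : 𝒱.Obj) : ℕ := orthRank (W.tr X) (c.cl X)

/-- Numerically trivial elements on the powers of `X` are homologically trivial. -/
def HomEqNum (c : ClassMap W C) (X : 𝒱.Obj) : Prop :=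
  ∀ n x, NumTrivial c (pw X n) x → c.cl (pw X n) x = 0

variable {c : ClassMap W C} {Z : 𝒱.Obj}

/-- The correspondence `e` is an idempotent, and all composites `e ∘ Γ ∘ e` are numerically
equivalent to rational multiples of `e`: the endomorphisms of the motive `(Z, e)` modulo numerical
equivalence are the rational numbers. -/
def ScalarEnd (c : ClassMap W C) (e : C.A (Z.prod Z)) : Prop :=
  comp3 C e e = e ∧ ∀ Γ : C.A (Z.prod Z), ∃ q : ℚ,
    NumTrivial c (Z.prod Z) (comp3 C (comp3 C e Γ) e - q • e)

/-- The Abel–Jacobi map with coefficients of the motive `(Z, e)` is injective and its image is the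
Selmer group. -/
def BlochKatoFor (σ : SelmerTheory.{u, v, w, x} c) (e : C.A (Z.prod Z)) : Prop :=
  InjOnFixed W.K (c.cl Z) (C.act e) (σ.aj Z) ∧ EqOnFixed (σ.corr Z Z e) (σ.im Z) (σ.sel Z)

/-- The dimension of the cohomology of the motive `(Z, e)`. -/
noncomputable def motiveDim (c : ClassMap W C) (e : C.A (Z.prod Z)) : ℕ :=
  opDim (W.map (fst Z Z)) (W.push (snd Z Z)) (c.cl (Z.prod Z) e)

end Pool.Agent.Y133.BK
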