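import Pool.Agent.Y133.BK.Defs

/-!
# Linear extensions
-/

open TensorProduct

namespace Pool.Agent.Y133.BK

section gen

variable {K V J : Type*} [Field K] [CharZero K] [AddCommGroup V] [Module ℚ V] [AddCommGroup J]
  [Module K J]

lemma smulTower : letI := Module.compHom J (algebraMap ℚ K); IsScalarTower ℚ K J := by
  let := Module.compHom J (algebraMap ℚ K)
  refine ⟨fun q r x => ?_⟩
  change (q • r) • x = (algebraMap ℚ K q) • (r • x)
  rw [Algebra.smul_def, mul_smul]

/-- The linear extension of an additive map. -/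
noncomputable def lin (f : V →+ J) : K ⊗[ℚ] V →ₗ[K] J :=
  letI := Module.compHom J (algebraMap ℚ K)
  haveI : IsScalarTower ℚ K J := smulTower
  LinearMap.liftBaseChange K f.toRatLinearMap

lemma lin_tmul (f : V →+ J) (r : K) (v : V) : lin f (r ⊗ₜ[ℚ] v) = r • f v := by
  let := Module.compHom J (algebraMap ℚ K)
  have : IsScalarTower ℚ K J := smulTower
  exact LinearMap.liftBaseChange_tmul K f.toRatLinearMap r v

/-- The independence of the elements `1 ⊗ x i`. -/
lemma indep_tmul {n : ℕ} {x : Fin n → V} (hx : LinearIndependent ℚ x) :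
    LinearIndependent K fun i => (1 : K) ⊗ₜ[ℚ] x i := by
  let b := Module.Basis.extend hx.linearIndepOn_id
  let B := b.baseChange K
  have hmem : ∀ i, x i ∈ hx.linearIndepOn_id.extend (Set.subset_univ _) := fun i =>
    hx.linearIndepOn_id.subset_extend _ ⟨i, rfl⟩
  have h1 : ∀ i, (1 : K) ⊗ₜ[ℚ] x i = B ⟨x i, hmem i⟩ := by
    intro i
    rw [Module.Basis.baseChange_apply, Module.Basis.extend_apply_self]
  simp only [h1]
  apply B.linearIndependent.comp (fun i => (⟨x i, hmem i⟩ : ↑(hx.linearIndepOn_id.extend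
    (Set.subset_univ _))))
  intro i j hij
  exact hx.injective (congrArg Subtype.val hij)

/-- The relations between the values of `φ` at `1 ⊗ x i`. -/
lemma finrank_rel (φ : K ⊗[ℚ] V →ₗ[K] J) {n : ℕ} (x : Fin n → V) (g : Fin n → J)
    (hg : ∀ i, φ ((1 : K) ⊗ₜ[ℚ] x i) = g i) :
    Module.finrank K (LinearMap.ker (φ ∘ₗ
      Fintype.linearCombination K fun i => (1 : K) ⊗ₜ[ℚ] x i)) =
      n - Module.finrank K (Submodule.span K (Set.range g)) := by
  have h1 := LinearMap.finrank_range_add_finrank_ker (φ ∘ₗ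
    Fintype.linearCombination K fun i => (1 : K) ⊗ₜ[ℚ] x i)
  have h2 : LinearMap.range (φ ∘ₗ Fintype.linearCombination K fun i => (1 : K) ⊗ₜ[ℚ] x i) =
      Submodule.span K (Set.range g) := by
    rw [LinearMap.range_comp, Fintype.range_linearCombination, Submodule.map_span,
      ← Set.range_comp]
    congr 2
    funext i
    exact hg i
  rw [h2, Module.finrank_fin_fun] at h1
  omega

lemma rel_le (φ : K ⊗[ℚ] V →ₗ[K] J) {n : ℕ} {x : Fin n → V} (hx : LinearIndependent ℚ x)
    (g : Fin n → J) (hg : ∀ i, φ ((1 : K) ⊗ₜ[ℚ] x i) = g i) :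
    ((n - Module.finrank K (Submodule.span K (Set.range g)) : ℕ) : ℕ∞) ≤
      Cardinal.toENat (Module.rank K (LinearMap.ker φ)) := by
  rw [← finrank_rel φ x g hg]
  set e := Fintype.linearCombination K fun i => (1 : K) ⊗ₜ[ℚ] x i with he
  have hinj : Function.Injective e := (indep_tmul hx).fintypeLinearCombination_injective
  let g : LinearMap.ker (φ ∘ₗ e) →ₗ[K] LinearMap.ker φ :=
    LinearMap.codRestrict _ (e ∘ₗ (LinearMap.ker (φ ∘ₗ e)).subtype) (fun t => t.2)
  have hg : Function.Injective g := by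
    intro s t hst
    exact Subtype.ext (hinj (congrArg Subtype.val hst))
  have h1 := LinearMap.lift_rank_le_of_injective g hg
  have h2 := OrderHomClass.mono Cardinal.toENat h1
  rw [Cardinal.toENat_lift, Cardinal.toENat_lift, ← Module.finrank_eq_rank,
    Cardinal.toENat_nat] at h2
  exact h2

omit [CharZero K] in
lemma card_le_rel {U : Type*} [AddCommGroup U] [Module K U] (φ : U →ₗ[K] J) {n m : ℕ}
    (e : (Fin n → K) →ₗ[K] U) {u : Fin m → LinearMap.ker φ} (hu : LinearIndependent K u)
    (h : ∀ j, (u j : U) ∈ LinearMap.range e) :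
    m ≤ Module.finrank K (LinearMap.ker (φ ∘ₗ e)) := by
  choose t ht using h
  have htk : ∀ j, t j ∈ LinearMap.ker (φ ∘ₗ e) := by
    intro j
    rw [LinearMap.mem_ker, LinearMap.comp_apply, ht]
    exact (u j).2
  have h3 : LinearIndependent K fun j => (⟨t j, htk j⟩ : LinearMap.ker (φ ∘ₗ e)) := by
    have h4 : LinearIndependent K ((LinearMap.ker φ).subtype ∘ u) :=
      hu.map' (LinearMap.ker φ).subtype (Submodule.ker_subtype _)
    have h5 : (LinearMap.ker φ).subtype ∘ u =
        (e ∘ₗ (LinearMap.ker (φ ∘ₗ e)).subtype) ∘ fun j => ⟨t j, htk j⟩ := by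
      funext j
      exact (ht j).symm
    rw [h5] at h4
    exact h4.of_comp _
  have h6 := h3.fintype_card_le_finrank
  rwa [Fintype.card_fin] at h6

lemma exists_rel (φ : K ⊗[ℚ] V →ₗ[K] J) {m : ℕ}
    (hm : (m : ℕ∞) ≤ Cardinal.toENat (Module.rank K (LinearMap.ker φ))) :
    ∃ (n : ℕ) (x : Fin n → V), LinearIndependent ℚ x ∧
      ∀ g : Fin n → J, (∀ i, φ ((1 : K) ⊗ₜ[ℚ] x i) = g i) →
        m ≤ n - Module.finrank K (Submodule.span K (Set.range g)) := by
  classical
  rw [Cardinal.natCast_le_toENat, Module.le_rank_iff] at hm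
  obtain ⟨u, hu⟩ := hm
  let b := Module.Basis.ofVectorSpace ℚ V
  let B := b.baseChange K
  let s : Finset (Module.Basis.ofVectorSpaceIndex ℚ V) :=
    Finset.univ.biUnion fun j => (B.repr (u j : K ⊗[ℚ] V)).support
  let ε := s.equivFin
  let x : Fin s.card → V := fun i => b (ε.symm i)
  have hx : LinearIndependent ℚ x :=
    b.linearIndependent.comp (fun i => ((ε.symm i : s) : Module.Basis.ofVectorSpaceIndex ℚ V))
      (fun i j hij => ε.symm.injective (Subtype.ext hij))
  refine ⟨s.card, x, hx, fun g hg => ?_⟩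
  rw [← finrank_rel φ x g hg]
  apply card_le_rel φ _ hu
  intro j
  have h1 : (u j : K ⊗[ℚ] V) ∈ Submodule.span K (B '' (s : Set _)) := by
    rw [Module.Basis.mem_span_image]
    intro i hi
    exact Finset.mem_coe.2 (Finset.mem_biUnion.2 ⟨j, Finset.mem_univ _, hi⟩)
  have h2 : Submodule.span K (B '' (s : Set _)) ≤
      LinearMap.range (Fintype.linearCombination K fun i => (1 : K) ⊗ₜ[ℚ] x i) := by
    rw [Fintype.range_linearCombination, Submodule.span_le]
    rintro _ ⟨i, hi, rfl⟩
    apply Submodule.subset_span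
    refine ⟨ε ⟨i, hi⟩, ?_⟩
    change (1 : K) ⊗ₜ[ℚ] b (ε.symm (ε ⟨i, hi⟩)) = B i
    rw [Equiv.symm_apply_apply, Module.Basis.baseChange_apply]
  exact h2 h1

end gen

section ker

variable {K A B J : Type*} [Field K] [CharZero K] [Ring A] [Algebra ℚ A] [Ring B]
  [AddCommGroup J] [Module K J]

/-- The subspace of the elements killed by `c`. -/
def kerQ (c : A →+* B) : Submodule ℚ A := (RingHom.ker c).restrictScalars ℚ

lemma mem_kerQ {c : A →+* B} {x : A} : x ∈ kerQ c ↔ c x = 0 := Iff.rfl

/-- The additive map on the elements killed by `c`. -/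
def addHom {c : A →+* B} {f : A → J} (h : AddOn c f) : kerQ c →+ J :=
  AddMonoidHom.mk' (fun x => f x) fun x y => h x y x.2 y.2

lemma addHom_apply {c : A →+* B} {f : A → J} (h : AddOn c f) (x : kerQ c) :
    addHom h x = f x := rfl

/-- The linear extension. -/
noncomputable def ext' (K : Type*) {A B J : Type*} [Field K] [CharZero K] [Ring A] [Algebra ℚ A]
    [Ring B] [AddCommGroup J] [Module K J] {c : A →+* B} {f : A → J} (h : AddOn c f) :
    K ⊗[ℚ] kerQ c →ₗ[K] J := lin (addHom h)

lemma ext'_tmul {c : A →+* B} {f : A → J} (h : AddOn c f) (r : K) (x : kerQ c) :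
    ext' K h (r ⊗ₜ[ℚ] x) = r • f x := lin_tmul _ _ _

lemma ext'_one {c : A →+* B} {f : A → J} (h : AddOn c f) (x : kerQ c) :
    ext' K h (1 ⊗ₜ[ℚ] x) = f x := by rw [ext'_tmul, one_smul]

/-- The dimension of the kernel. -/
theorem nullK_eq {c : A →+* B} {f : A → J} (h : AddOn c f) :
    nullK K c f = Cardinal.toENat (Module.rank K (LinearMap.ker (ext' K h))) := by
  apply le_antisymm
  · refine iSup_le fun n => iSup_le fun x => iSup_le fun hx => ?_
    let x' : Fin n → kerQ c := fun i => ⟨x i, hx.1 i⟩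
    have hx' : LinearIndependent ℚ x' :=
      LinearIndependent.of_comp (kerQ c).subtype hx.2
    exact rel_le (ext' K h) hx' (fun i => f (x i)) fun i => ext'_one h _
  · rw [← ENat.forall_natCast_le_iff_le]
    intro m hm
    obtain ⟨n, x, hx, h1⟩ := exists_rel (ext' K h) hm
    have h1 := h1 (fun i => f (x i)) fun i => ext'_one h _
    have hx' : IndepIn c fun i => (x i : A) :=
      ⟨fun i => (x i).2, hx.map' (kerQ c).subtype (Submodule.ker_subtype _)⟩
    refine le_trans ?_ (le_iSup_of_le n (le_iSup_of_le (fun i => (x i : A))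
      (le_iSup_of_le hx' le_rfl)))
    exact_mod_cast h1

lemma finrank_span_of_indep {n : ℕ} {v : Fin n → J} :
    LinearIndependent K v ↔ n ≤ Module.finrank K (Submodule.span K (Set.range v)) := by
  rw [linearIndependent_iff_card_le_finrank_span, Fintype.card_fin]
  rfl

lemma injK_iff {c : A →+* B} {f : A → J} : InjK K c f ↔ nullK K c f = 0 := by
  rw [← nonpos_iff_eq_zero, nullK]
  simp only [iSup_le_iff]
  constructor
  · intro h n x hx
    have h1 := finrank_span_of_indep.1 (h n x hx)
    have h2 : n - Module.finrank K (Submodule.span K (Set.range fun i => f (x i))) = 0 := by omega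
    rw [h2]
    simp
  · intro h n x hx
    have h1 := h n x hx
    rw [nonpos_iff_eq_zero] at h1
    have h2 : n - Module.finrank K (Submodule.span K (Set.range fun i => f (x i))) = 0 := by
      exact_mod_cast h1
    exact finrank_span_of_indep.2 (by omega)

/-- The image of the linear extension. -/
lemma imK_eq {c : A →+* B} {f : A → J} (h : AddOn c f) :
    imK K c f = LinearMap.range (ext' K h) := by
  apply le_antisymm
  · rw [imK, Submodule.span_le]
    rintro _ ⟨x, hx, rfl⟩
    exact ⟨1 ⊗ₜ[ℚ] (⟨x, hx⟩ : kerQ c), ext'_one h _⟩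
  · rintro _ ⟨t, rfl⟩
    induction t using TensorProduct.induction_on with
    | zero => rw [map_zero]; exact Submodule.zero_mem _
    | tmul r x =>
      rw [ext'_tmul]
      exact Submodule.smul_mem _ _ (Submodule.subset_span ⟨x, x.2, rfl⟩)
    | add s t hs ht => rw [map_add]; exact Submodule.add_mem _ hs ht

lemma distDim_eq_zero {S T : Submodule K J} : distDim S T = 0 ↔ S = T := by
  rw [distDim, Cardinal.toENat_eq_zero, rank_zero_iff, Submodule.subsingleton_iff_eq_bot,
    ← LinearMap.le_ker_iff_map, Submodule.ker_mkQ]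
  constructor
  · intro h
    exact le_antisymm ((le_sup_left.trans h).trans inf_le_right)
      ((le_sup_right.trans h).trans inf_le_left)
  · rintro rfl
    simp

end ker

end Pool.Agent.Y133.BK
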