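import Pool.Agent.Y133.BK.Law
import Pool.Agent.Y133.BK.Lin

/-!
# The zero-one law for Abel–Jacobi maps to Selmer groups
-/

set_option linter.unusedSectionVars false

open CategoryTheory AlgebraicGeometry TensorProduct Filter Topology

open scoped ENNReal

universe u v w x y

namespace Pool.Agent.Y133.BK

open Pool.Agent.H914 Pool.Agent.H914.VarClass Pool.Agent.H914.VarClass.Obj
  Pool.Agent.H914.WeilCohomology Pool.Agent.W492.BB Pool.Agent.Y129 Pool.Agent.TH133
  Pool.Agent.H281R3.HT Pool.Agent.Y133.Chow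
open Pool.Agent.Y133.AJ (AbelJacobi ajSub ajSub_isSys IsSys full_of_homIsNum)
open Pool.Agent.W550.Corr (dg act_dg)

variable {k : Type u} [Field k] {𝒱 : VarClass k} {ops : CycleOps 𝒱}
  {W : WeilCohomology.{u, v} ops} {C : TheoryData.{u, w, 0} 𝒱 ℚ} [hC : IsChowProj C]
  {c : ClassMap W C} (σ : SelmerTheory.{u, v, w, x} c) {X Y Z : 𝒱.Obj}

/-! ### The modules -/

/-- The target as a module over the correspondences. -/
noncomputable def modJ : KMod.{u, v, w, x} W C where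
  M := σ.J
  act {X Y} := AddMonoidHom.mk' (fun Γ => ((σ.operates X Y).2 Γ).mk' _) fun Γ Δ =>
    LinearMap.ext fun a => (σ.operates X Y).1 Γ Δ a
  act_comp {X Y Z} Γ Δ a := σ.corr_comp X Y Z Γ Δ a
  act_dg X a := σ.corr_id X a

lemma modJ_act (Γ : C.A (X.prod Y)) (a : σ.J X) : (modJ σ).act Γ a = σ.corr X Y Γ a := rfl

/-- The extension of the coefficients of a system of subspaces of the Chow groups. -/
noncomputable def ratMod (W : WeilCohomology.{u, v} ops) (F : ∀ Y : 𝒱.Obj, Submodule ℚ (C.A Y))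
    (hF : ∀ (Y Z : 𝒱.Obj) (Γ : C.A (Y.prod Z)), ∀ a ∈ F Y, C.act Γ a ∈ F Z) :
    KMod.{u, v, w, max v w} W C where
  M Y := W.K ⊗[ℚ] F Y
  act {Y Z} := AddMonoidHom.mk' (fun Γ => ((C.actL Γ).restrict (hF Y Z Γ)).baseChange W.K)
    fun Γ Δ => by
      have h1 : (C.actL (Γ + Δ)).restrict (hF Y Z (Γ + Δ)) =
          (C.actL Γ).restrict (hF Y Z Γ) + (C.actL Δ).restrict (hF Y Z Δ) :=
        LinearMap.ext fun a => Subtype.ext (C.act_add Γ Δ a)
      rw [h1, LinearMap.baseChange_add]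
  act_comp {X Y Z} Γ Δ a := by
    have h1 : (C.actL (C.comp Γ Δ)).restrict (hF X Z (C.comp Γ Δ)) =
        (C.actL Δ).restrict (hF Y Z Δ) ∘ₗ (C.actL Γ).restrict (hF X Y Γ) :=
      LinearMap.ext fun a => Subtype.ext (C.act_comp Γ Δ a)
    change ((C.actL (C.comp Γ Δ)).restrict (hF X Z (C.comp Γ Δ))).baseChange W.K a =
      ((C.actL Δ).restrict (hF Y Z Δ)).baseChange W.K
        (((C.actL Γ).restrict (hF X Y Γ)).baseChange W.K a)
    rw [h1, LinearMap.baseChange_comp]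
    rfl
  act_dg X a := by
    have h1 : (C.actL (dg C X)).restrict (hF X X (dg C X)) = LinearMap.id :=
      LinearMap.ext fun a => Subtype.ext (act_dg C a.1)
    change ((C.actL (dg C X)).restrict (hF X X (dg C X))).baseChange W.K a = a
    rw [h1, LinearMap.baseChange_id]
    rfl

lemma act_mem_kerQ (Y Z : 𝒱.Obj) (Γ : C.A (Y.prod Z)) (a : C.A Y) (ha : a ∈ kerQ (c.cl Y)) :
    C.act Γ a ∈ kerQ (c.cl Z) := by
  rw [mem_kerQ] at ha ⊢
  rw [Chow.cl_act, ha, map_zero]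

/-- The homologically trivial elements with coefficients. -/
noncomputable def modV (c : ClassMap W C) : KMod.{u, v, w, max v w} W C :=
  ratMod W (fun Y => kerQ (c.cl Y)) act_mem_kerQ

/-- The Abel–Jacobi map with coefficients. -/
noncomputable def ajK (X : 𝒱.Obj) : (modV c).M X →ₗ[W.K] σ.J X := ext' W.K (σ.aj_add X)

lemma ajK_act (Γ : C.A (X.prod Y)) (t : (modV c).M X) :
    ajK σ Y ((modV c).act Γ t) = (modJ σ).act Γ (ajK σ X t) := by
  let L1 : (modV c).M X →ₗ[W.K] (modJ σ).M Y := (ajK σ Y) ∘ₗ (modV c).act Γ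
  let L2 : (modV c).M X →ₗ[W.K] (modJ σ).M Y := (modJ σ).act Γ ∘ₗ (ajK σ X)
  have key : ∀ t : W.K ⊗[ℚ] kerQ (c.cl X), L1 t = L2 t := by
    intro t
    induction t using TensorProduct.induction_on with
    | zero => exact L1.map_zero.trans L2.map_zero.symm
    | tmul r a =>
      change ext' W.K (σ.aj_add Y)
        (r ⊗ₜ[ℚ] (⟨C.act Γ a.1, act_mem_kerQ X Y Γ a.1 a.2⟩ : kerQ (c.cl Y))) =
        (modJ σ).act Γ (ext' W.K (σ.aj_add X) (r ⊗ₜ[ℚ] a))
      rw [ext'_tmul, ext'_tmul]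
      refine Eq.trans ?_ (((modJ σ).act Γ).map_smul r (σ.aj X a.1)).symm
      rw [modJ_act, σ.aj_corr X Y Γ a.1 a.2]
      rfl
    | add s t hs ht =>
      exact (L1.map_add s t).trans ((congrArg₂ (· + ·) hs ht).trans (L2.map_add s t).symm)
  exact key t

/-- The kernel. -/
noncomputable def modKer : KMod.{u, v, w, max v w} W C :=
  (modV c).sub (fun X => LinearMap.ker (ajK σ X)) fun X Y Γ a ha => by
    rw [LinearMap.mem_ker] at ha ⊢
    rw [ajK_act]
    exact (congrArg ((modJ σ).act Γ) ha).trans ((modJ σ).act Γ).map_zero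

lemma im_stable (X Y : 𝒱.Obj) (Γ : C.A (X.prod Y)) (a : (modJ σ).M X) (ha : a ∈ σ.im X) :
    (modJ σ).act Γ a ∈ σ.im Y := by
  have h1 : ∀ X, σ.im X = LinearMap.range (ajK σ X) := fun X => imK_eq (σ.aj_add X)
  rw [h1] at ha ⊢
  obtain ⟨t, rfl⟩ := ha
  exact ⟨(modV c).act Γ t, ajK_act σ Γ t⟩

/-- The quotient measuring the difference of the image and the Selmer group. -/
noncomputable def modQ : KMod.{u, v, w, x} W C :=
  ((modJ σ).quot (fun X => (σ.im X ⊓ σ.sel X : Submodule W.K (σ.J X))) fun X Y Γ a ha =>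
    ⟨im_stable σ X Y Γ a ha.1, σ.corr_sel X Y Γ a ha.2⟩).sub
    (fun X => (σ.im X ⊔ σ.sel X).map (σ.im X ⊓ σ.sel X).mkQ) fun X Y Γ a ha => by
      obtain ⟨b, hb, rfl⟩ := ha
      refine ⟨σ.corr X Y Γ b, ?_, rfl⟩
      obtain ⟨b1, hb1, b2, hb2, rfl⟩ := Submodule.mem_sup.1 hb
      have h1 : σ.corr X Y Γ (b1 + b2) = σ.corr X Y Γ b1 + σ.corr X Y Γ b2 :=
        ((σ.operates X Y).2 Γ).map_add b1 b2
      rw [h1]
      exact Submodule.add_mem_sup (im_stable σ X Y Γ b1 hb1) (σ.corr_sel X Y Γ b2 hb2)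

/-- The module measuring the failure of the conjecture. -/
noncomputable def modD : KMod.{u, v, w, max (max v w) x} W C := (modKer σ).prod (modQ σ)

lemma rank_modD (X : 𝒱.Obj) :
    Cardinal.toENat (Module.rank W.K ((modD σ).M X)) = defect σ X := by
  have h1 : Module.rank W.K ((modKer σ).M X × (modQ σ).M X) = _ := rank_prod
  change Cardinal.toENat (Module.rank W.K ((modKer σ).M X × (modQ σ).M X)) = _
  rw [h1, map_add, Cardinal.toENat_lift, Cardinal.toENat_lift, defect, nullK_eq (σ.aj_add X)]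
  rfl

/-! ### Rational kernel -/

/-- The rational Abel–Jacobi map. -/
noncomputable def toAJ : AbelJacobi.{u, v, w, x} c where
  J := σ.J
  corr {X Y} Γ := (((σ.operates X Y).2 Γ).mk' _).toAddMonoidHom
  aj := σ.aj
  aj_add := σ.aj_add
  aj_corr {X Y} Γ a ha := σ.aj_corr X Y Γ a ha
  corr_hom {X Y} Γ hΓ := AddMonoidHom.ext fun a => σ.corr_hom X Y Γ a hΓ

lemma mem_ajSub' {a : C.A Y} (ha : a ∈ ajSub (toAJ σ) Y) : c.cl Y a = 0 ∧ σ.aj Y a = 0 := by
  have h0 : σ.aj Y 0 = 0 := by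
    have h1 := σ.aj_add Y 0 0 (map_zero _) (map_zero _)
    rw [add_zero] at h1
    exact left_eq_add.1 h1
  rw [ajSub] at ha
  induction ha using Submodule.span_induction with
  | mem a ha => exact ha
  | zero => exact ⟨map_zero _, h0⟩
  | add a b _ _ ha hb =>
    refine ⟨by rw [map_add, ha.1, hb.1, add_zero], ?_⟩
    rw [σ.aj_add Y a b ha.1 hb.1, ha.2, hb.2, add_zero]
  | smul q a _ ha =>
    have h1 : c.cl Y (q • a) = 0 := by rw [c.cl_smul, ha.1, smul_zero]
    refine ⟨h1, ?_⟩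
    have h2 := ext'_one (K := W.K) (σ.aj_add Y) ⟨q • a, h1⟩
    have h3 : ((1 : W.K) ⊗ₜ[ℚ] (⟨q • a, h1⟩ : kerQ (c.cl Y))) =
        (q • (1 : W.K)) ⊗ₜ[ℚ] (⟨a, ha.1⟩ : kerQ (c.cl Y)) := by
      rw [TensorProduct.smul_tmul]
      rfl
    rw [h3, ext'_tmul] at h2
    have h4 : σ.aj Y a = 0 := ha.2
    change _ = σ.aj Y (q • a) at h2
    rw [← h2]
    change (q • (1 : W.K)) • σ.aj Y a = 0
    rw [h4, smul_zero]

lemma rank_le_defect (Y : 𝒱.Obj) :
    Cardinal.toENat (Module.rank ℚ (ajSub (toAJ σ) Y)) ≤ defect σ Y := by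
  refine le_trans ?_ (le_add_right le_rfl)
  rw [← ENat.forall_natCast_le_iff_le]
  intro m hm
  rw [Cardinal.natCast_le_toENat, Module.le_rank_iff] at hm
  obtain ⟨u, hu⟩ := hm
  have hx : IndepIn (c.cl Y) fun i => (u i : C.A Y) :=
    ⟨fun i => (mem_ajSub' σ (u i).2).1, hu.map' (ajSub (toAJ σ) Y).subtype
      (Submodule.ker_subtype _)⟩
  have h1 : Submodule.span W.K (Set.range fun i => σ.aj Y (u i : C.A Y)) = ⊥ := by
    rw [Submodule.span_eq_bot]
    rintro _ ⟨i, rfl⟩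
    exact (mem_ajSub' σ (u i).2).2
  refine le_trans ?_ (le_iSup_of_le m (le_iSup_of_le (fun i => (u i : C.A Y))
    (le_iSup_of_le hx le_rfl)))
  rw [h1, finrank_bot, Nat.sub_zero]

/-! ### The law -/

/-- **The zero-one law.** -/
theorem bk_index [Nontrivial (W.H X)] (hD : HomIsNum c X) : ∃ N : ℕ∞,
    RatioTendsTo (fun n => defect σ (pw X n)) (fun n => numDim c (pw X n)) N ∧
    (N = 0 ↔ ∀ n, BlochKato σ (pw X n)) := by
  have hfull := full_of_homIsNum hD
  have hbk : ∀ Y, defect σ Y = 0 ↔ BlochKato σ Y := by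
    intro Y
    rw [defect, add_eq_zero, BlochKato, injK_iff, distDim_eq_zero]
  obtain ⟨N, h1, h2⟩ := enat_law c (modD σ) hfull (by
    intro hN
    have h3 := sys_top c (ajSub_isSys (toAJ σ) hD) hfull hN
    refine tendsto_of_tendsto_of_tendsto_of_le_of_le h3 tendsto_const_nhds (fun n => ?_)
      (fun n => by rw [ENat.toENNReal_top]; exact le_top)
    apply ENNReal.div_le_div_right
    rw [ENat.toENNReal_le, rank_modD]
    exact rank_le_defect σ (pw X n))
  simp only [rank_modD] at h1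
  refine ⟨N, (ratio_iff c (b := fun n => defect σ (pw X n))).2 h1, fun h n => ?_, fun h => ?_⟩
  · rw [← hbk, ← rank_modD, h2 h n, map_zero]
  · have h5 : Tendsto (fun _ : ℕ => (0 : ℝ≥0∞)) atTop (𝓝 (N : ℝ≥0∞)) := by
      refine h1.congr fun n => ?_
      rw [(hbk _).2 (h n), ENat.toENNReal_zero, ENNReal.zero_div]
    have h6 := tendsto_nhds_unique h5 tendsto_const_nhds
    exact ENat.toENNReal_eq_zero.1 h6

end Pool.Agent.Y133.BK
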