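import Pool.Agent.Y133.BK.Cons
import Pool.Agent.Y133.AJ.Final

/-!
# The ratio law for modules over the correspondences in terms of dimensions in `ℕ ∪ {∞}`
-/

set_option linter.unusedSectionVars false

open CategoryTheory AlgebraicGeometry TensorProduct Filter Topology

open scoped ENNReal

universe u v w x y

namespace Pool.Agent.Y133.BK

open Pool.Agent.H914 Pool.Agent.H914.VarClass Pool.Agent.H914.VarClass.Obj
  Pool.Agent.H914.WeilCohomology Pool.Agent.W492.BB Pool.Agent.Y129 Pool.Agent.TH133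
  Pool.Agent.H281R3.HT Pool.Agent.Y133.Chow
open Pool.Agent.Y133.AJ (IsSys infinite_of_not_nil_sys)

variable {k : Type u} [Field k] {𝒱 : VarClass k} {ops : CycleOps 𝒱}
  {W : WeilCohomology.{u, v} ops} {C : TheoryData.{u, w, 0} 𝒱 ℚ} [hC : IsChowProj C]
  (c : ClassMap W C) (M : KMod.{u, v, w, x} W C) {X Y Z : 𝒱.Obj}
  {F : ∀ Y : 𝒱.Obj, Submodule ℚ (C.A Y)}

/-- There is a numerically trivial self-correspondence of a power of `X` which is not nilpotent. -/
def NotNil (c : ClassMap W C) (X : 𝒱.Obj) : Prop :=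
  ∃ Z ∈ powSet X, ∃ f : Cor C Z, (f : C.A (Z.prod Z)) ∈ numSub c (Z.prod Z) ∧ ¬ IsNilpotent f

theorem closed_law [IsAlgClosed W.K] [Nontrivial (W.H X)]
    [∀ n, Module.Finite W.K (M.M (pw X n))] (hS : GoodSet W (powSet X)) (hN : Nil c X) :
    Tendsto (fun n => (Module.finrank W.K (M.M (pw X n)) : ℝ) / numRank W (pw X n)) atTop
      atTop ∨ ∃ N : ℕ,
    Tendsto (fun n => (Module.finrank W.K (M.M (pw X n)) : ℝ) / numRank W (pw X n)) atTop
      (𝓝 (N : ℝ)) ∧ (N = 0 → ∀ n, Module.finrank W.K (M.M (pw X n)) = 0) := by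
  have hX : X ∈ powSet X := pw_mem_powSet X 0
  rcases mod_law c M hS hX (nilOn_of_nil c M hN) (G := fun _ => ⊤) (top_modStable M) with
    ⟨N, h1⟩ | h1
  · right
    have h1' := h1
    simp only [finrank_top] at h1'
    refine ⟨N, h1', fun hN0 n => ?_⟩
    by_contra hne
    have h2 := one_le_midx c M hS hX (nilOn_of_nil c M hN) (G := fun _ => ⊤) (top_modStable M)
      (m := n) (fun h0 => hne (by
        have h3 : Module.finrank W.K (⊤ : Submodule W.K (M.M (pw X n))) = 0 := by
          have h0' : (⊤ : Submodule W.K (M.M (pw X n))) = ⊥ := h0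
          rw [h0', finrank_bot]
        rwa [finrank_top] at h3)) h1
    rw [hN0] at h2
    norm_num at h2
  · left
    simp only [finrank_top] at h1
    exact h1

lemma finrank_base (L : Type v) [Field L] [Algebra W.K L] (n : ℕ) :
    Module.finrank (baseW W L).K ((M.base L).M (pw X n)) = Module.finrank W.K (M.M (pw X n)) :=
  Module.finrank_baseChange (R := L) (S := W.K) (M' := M.M (pw X n))

/-- The ratio law in terms of real numbers. -/
theorem real_law [Nontrivial (W.H X)] [∀ n, Module.Finite W.K (M.M (pw X n))]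
    (hfull : Full W X) (hN : ¬ NotNil c X) :
    Tendsto (fun n => (Module.finrank W.K (M.M (pw X n)) : ℝ) / numRank W (pw X n)) atTop
      atTop ∨ ∃ N : ℕ,
    Tendsto (fun n => (Module.finrank W.K (M.M (pw X n)) : ℝ) / numRank W (pw X n)) atTop
      (𝓝 (N : ℝ)) ∧ (N = 0 → ∀ n, Module.finrank W.K (M.M (pw X n)) = 0) := by
  have hcl : IsAlgClosed (baseW W (AlgebraicClosure W.K)).K :=
    (inferInstance : IsAlgClosed (AlgebraicClosure W.K))
  have hnt : Nontrivial ((baseW W (AlgebraicClosure W.K)).H X) := nontrivial_base _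
  have hF' : GoodSet (baseW W (AlgebraicClosure W.K)) (powSet X) := hfull
  have hfin : ∀ n, Module.Finite (baseW W (AlgebraicClosure W.K)).K
      ((M.base (AlgebraicClosure W.K)).M (pw X n)) := fun n =>
    (inferInstance : Module.Finite (AlgebraicClosure W.K)
      (AlgebraicClosure W.K ⊗[W.K] M.M (pw X n)))
  have hnil : Nil (c.base (AlgebraicClosure W.K)) X := by
    intro n f hf
    rw [numSub_base] at hf
    by_contra h
    exact hN ⟨_, pw_mem_powSet X n, f, hf, h⟩
  have h1 := closed_law (c.base (AlgebraicClosure W.K)) (M.base (AlgebraicClosure W.K)) hF' hnil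
  simp only [numRank_base, finrank_base] at h1
  exact h1

/-- The ratio law. -/
theorem enat_law [Nontrivial (W.H X)] (hfull : Full W X)
    (hinf : NotNil c X → Tendsto (fun n =>
      ((Cardinal.toENat (Module.rank W.K (M.M (pw X n))) : ℕ∞) : ℝ≥0∞) /
        Half.cycRank ops (pw X n)) atTop (𝓝 ((⊤ : ℕ∞) : ℝ≥0∞))) :
    ∃ N : ℕ∞, Tendsto (fun n =>
      ((Cardinal.toENat (Module.rank W.K (M.M (pw X n))) : ℕ∞) : ℝ≥0∞) /
        Half.cycRank ops (pw X n)) atTop (𝓝 (N : ℝ≥0∞)) ∧
      (N = 0 → ∀ n, Module.rank W.K (M.M (pw X n)) = 0) := by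
  have hpos : ∀ n, 0 < numRank W (pw X n) := numRank_pos c
  have htop : Tendsto (fun n => ((Cardinal.toENat (Module.rank W.K (M.M (pw X n))) : ℕ∞) : ℝ≥0∞) /
      Half.cycRank ops (pw X n)) atTop (𝓝 ((⊤ : ℕ∞) : ℝ≥0∞)) → ∃ N : ℕ∞,
      Tendsto (fun n => ((Cardinal.toENat (Module.rank W.K (M.M (pw X n))) : ℕ∞) : ℝ≥0∞) /
        Half.cycRank ops (pw X n)) atTop (𝓝 (N : ℝ≥0∞)) ∧
      (N = 0 → ∀ n, Module.rank W.K (M.M (pw X n)) = 0) := by
    intro h
    exact ⟨⊤, h, fun h1 => absurd h1 (by simp)⟩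
  have hfr : ∀ n, Module.Finite W.K (M.M (pw X n)) →
      Cardinal.toENat (Module.rank W.K (M.M (pw X n))) =
        (Module.finrank W.K (M.M (pw X n)) : ℕ∞) := by
    intro n hn
    rw [← Module.finrank_eq_rank, Cardinal.toENat_nat]
  have hinf' : ∀ n, ¬ Module.Finite W.K (M.M (pw X n)) →
      Cardinal.toENat (Module.rank W.K (M.M (pw X n))) = ⊤ := by
    intro n hn
    rw [Cardinal.toENat_eq_top]
    by_contra h1
    push Not at h1
    exact hn (Module.rank_lt_aleph0_iff.1 h1)
  by_cases hN : NotNil c X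
  · exact htop (hinf hN)
  by_cases hfin : ∀ n, Module.Finite W.K (M.M (pw X n))
  · have hdiv : ∀ n, ENNReal.ofReal ((Module.finrank W.K (M.M (pw X n)) : ℝ) /
        numRank W (pw X n)) =
          ((Cardinal.toENat (Module.rank W.K (M.M (pw X n))) : ℕ∞) : ℝ≥0∞) /
          Half.cycRank ops (pw X n) := by
      intro n
      rw [ratio_ofReal (hpos n), hfr n (hfin n), cycRank_eq W, ENat.toENNReal_coe]
    rcases real_law c M hfull hN with h1 | ⟨N, h1, h2⟩
    · apply htop
      have h3 := (ENNReal.tendsto_ofReal_atTop.comp h1).congr hdiv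
      rw [ENat.toENNReal_top]
      exact h3
    · refine ⟨N, ?_, fun h5 n => ?_⟩
      · have h5 := (ENNReal.tendsto_ofReal h1).congr hdiv
        rw [ENat.toENNReal_coe]
        rwa [ENNReal.ofReal_natCast] at h5
      · have h6 := h2 (by exact_mod_cast h5) n
        rw [← Module.finrank_eq_rank, h6, Nat.cast_zero]
  · apply htop
    push Not at hfin
    obtain ⟨n₀, hn₀⟩ := hfin
    have h1 : ∀ n, n₀ ≤ n → ¬ Module.Finite W.K (M.M (pw X n)) := by
      intro n hn
      induction n, hn using Nat.le_induction with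
      | base => exact hn₀
      | succ n _ ih => exact M.not_finite_succ ih
    rw [ENat.toENNReal_top]
    refine tendsto_const_nhds.congr' ?_
    filter_upwards [eventually_ge_atTop n₀] with n hn
    rw [hinf' n (h1 n hn), ENat.toENNReal_top,
      ENNReal.top_div_of_ne_top (ENNReal.natCast_ne_top _)]

/-- If there is a numerically trivial correspondence which is not nilpotent, then the systems grow
fast. -/
theorem sys_top [Nontrivial (W.H X)] (hF : IsSys c (powSet X) F) (hfull : Full W X)
    (hN : NotNil c X) :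
    Tendsto (fun n => ((Cardinal.toENat (Module.rank ℚ (F (pw X n))) : ℕ∞) : ℝ≥0∞) /
        Half.cycRank ops (pw X n)) atTop (𝓝 ((⊤ : ℕ∞) : ℝ≥0∞)) := by
  have hpos : ∀ n, 0 < numRank W (pw X n) := numRank_pos c
  rw [ENat.toENNReal_top]
  by_cases hfin : ∀ n, Module.Finite ℚ (F (pw X n))
  · have hdiv : ∀ n, ENNReal.ofReal ((Module.finrank ℚ (F (pw X n)) : ℝ) /
        numRank W (pw X n)) = ((Cardinal.toENat (Module.rank ℚ (F (pw X n))) : ℕ∞) : ℝ≥0∞) /
          Half.cycRank ops (pw X n) := by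
      intro n
      have h0 := hfin n
      have h1 : Cardinal.toENat (Module.rank ℚ (F (pw X n))) =
          (Module.finrank ℚ (F (pw X n)) : ℕ∞) := by
        rw [← Module.finrank_eq_rank, Cardinal.toENat_nat]
      rw [ratio_ofReal (hpos n), h1, cycRank_eq W, ENat.toENNReal_coe]
    have hcl : IsAlgClosed (baseW W (AlgebraicClosure W.K)).K :=
      (inferInstance : IsAlgClosed (AlgebraicClosure W.K))
    have hnt : Nontrivial ((baseW W (AlgebraicClosure W.K)).H X) := nontrivial_base _
    have hF' : GoodSet (baseW W (AlgebraicClosure W.K)) (powSet X) := hfull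
    obtain ⟨Z, hZ, f, hf, hf'⟩ := hN
    have hf'' : (f : C.A (Z.prod Z)) ∈ numSub (c.base (AlgebraicClosure W.K)) (Z.prod Z) := by
      rw [numSub_base]
      exact hf
    have h1 := infinite_of_not_nil_sys (hF.base' (AlgebraicClosure W.K)) hF' (fun n => by
      rw [numRank_base]
      exact hpos n) hZ hf'' hf'
    simp only [numRank_base] at h1
    exact (ENNReal.tendsto_ofReal_atTop.comp h1).congr hdiv
  · push Not at hfin
    obtain ⟨n₀, hn₀⟩ := hfin
    have h1 : ∀ n, n₀ ≤ n → ¬ Module.Finite ℚ (F (pw X n)) := by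
      intro n hn
      induction n, hn using Nat.le_induction with
      | base => exact hn₀
      | succ n _ ih => exact hF.not_finite_succ ih
    refine tendsto_const_nhds.congr' ?_
    filter_upwards [eventually_ge_atTop n₀] with n hn
    have h2 : Cardinal.toENat (Module.rank ℚ (F (pw X n))) = ⊤ := by
      rw [Cardinal.toENat_eq_top]
      by_contra h3
      push Not at h3
      exact h1 n hn (Module.rank_lt_aleph0_iff.1 h3)
    rw [h2, ENat.toENNReal_top, ENNReal.top_div_of_ne_top (ENNReal.natCast_ne_top _)]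

end Pool.Agent.Y133.BK
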