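import Pool.Agent.Y133.BK.Final
import Pool.Agent.Y129.Gal2
import Pool.Agent.Y133.BK.Defs2

/-!
# The lower bound for the index given by a primitive idempotent
-/

set_option linter.unusedSectionVars false

open CategoryTheory AlgebraicGeometry TensorProduct Filter Topology

open scoped ENNReal

universe u v w x y

namespace Pool.Agent.Y133.BK

section Abstract

open Module LinearMap Finset Pool.Agent.Y129 Pool.Agent.Y133.Chow

variable {K : Type*} [Field K] {H : ℕ → Type*} [∀ n, AddCommGroup (H n)]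
  [∀ n, Module K (H n)] {C : ∀ m n, Submodule K (H m →ₗ[K] H n)} [∀ n, Module.Finite K (H n)]
  {H' : ℕ → Type*} [∀ n, AddCommGroup (H' n)]
  [∀ n, Module K (H' n)] {C' : ∀ m n, Submodule K (H' m →ₗ[K] H' n)}
  [∀ n, Module.Finite K (H' n)] {π : ∀ m n, (H' m →ₗ[K] H' n) →ₗ[K] (H m →ₗ[K] H n)}
  [IsAlgClosed K] [CharZero K] {β : ℕ → ℕ} {b : ℕ}

/-- The index of a stable system which is not killed by a primitive idempotent is at least the rank
of this idempotent. -/
theorem rank_limit (hE : IsExt C C' π) (h : IsPowers C β b)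
    {𝒢 : ∀ n, Submodule K (H' n)} (h𝒢 : IsStable C' 𝒢) {m : ℕ} {ε : Module.End K (H' m)}
    (hε : ε ∈ C' m m) (hε' : IsIdempotentElem ε) (hε'' : nd C' m m (sand C' m m ε ε) = 1)
    (hne : (𝒢 m).map ε ≠ ⊥) {N : ℝ}
    (h2 : Tendsto (fun n => (finrank K (𝒢 n) : ℝ) / β n) atTop (𝓝 N)) :
    (finrank K (range (π m m ε)) : ℝ) ≤ N := by
  have h3 := h.tendsto_cmp_div
  rw [← tendsto_add_atTop_iff_nat 1] at h2
  have hlt : finrank K ((⊥ : Submodule K (H' m)).map ε) < finrank K ((𝒢 m).map ε) := by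
    rw [Submodule.map_bot, finrank_bot, Module.finrank_pos_iff_of_free]
    exact Submodule.nontrivial_iff_ne_bot.2 hne
  have hbot : IsStable C' (fun n => (⊥ : Submodule K (H' n))) := by
    intro m n f _ x hx
    rw [Submodule.mem_bot] at hx ⊢
    rw [hx, map_zero]
  set ρ : ℝ := ((finrank K (LinearMap.range (π m m ε)) : ℕ) : ℝ) with hρ
  by_contra hcon
  push Not at hcon
  set δ : ℝ := (ρ - N) / 2 with hδ
  have hδ0 : 0 < δ := by rw [hδ]; linarith
  have h4 := (h3.const_mul (ρ - δ)).sub h2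
  have h5 : 0 < (ρ - δ) * 1 - N := by rw [hδ]; linarith
  have h6 := (h4.eventually (lt_mem_nhds h5)).and ((hE.eventually h m hε hε' hδ0).and
    (h3.eventually (lt_mem_nhds (a := 1 / 2) (by norm_num))))
  obtain ⟨n, hn1, hn2, hn3⟩ := h6.exists
  have hpos : (0 : ℝ) < β (n + 1) := by
    by_contra hcon'
    have : (β (n + 1) : ℝ) = 0 := le_antisymm (not_lt.1 hcon') (Nat.cast_nonneg _)
    rw [this, div_zero] at hn3
    linarith
  have h7 := sub_le_finrank hE.cat m (n + 1) hε hε' hε'' hbot h𝒢 (fun _ => bot_le) hlt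
  rw [finrank_bot, zero_add] at h7
  have h8 : (nd C' m (n + 1) (sand C' m (n + 1) LinearMap.id ε) : ℝ) ≤
      finrank K (𝒢 (n + 1)) := by exact_mod_cast h7
  have h9 : (ρ - δ) * ((cmp β b n : ℝ) / β (n + 1)) ≤ (finrank K (𝒢 (n + 1)) : ℝ) / β (n + 1) := by
    rw [← mul_div_assoc]
    exact div_le_div_of_nonneg_right (hn2.trans h8) hpos.le
  linarith

end Abstract

open Pool.Agent.H914 Pool.Agent.H914.VarClass Pool.Agent.H914.VarClass.Obj
  Pool.Agent.H914.WeilCohomology Pool.Agent.W492.BB Pool.Agent.Y129 Pool.Agent.TH133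
  Pool.Agent.H281R3.HT Pool.Agent.Y133.Chow

variable {k : Type u} [Field k] {𝒱 : VarClass k} {ops : CycleOps 𝒱}
  {W : WeilCohomology.{u, v} ops} {C : TheoryData.{u, w, 0} 𝒱 ℚ} [hC : IsChowProj C]
  (c : ClassMap W C) (M : KMod.{u, v, w, x} W C) {X Y Z : 𝒱.Obj}

/-- The composites `e ∘ Γ ∘ e` are numerically equivalent to rational multiples of `e`. -/
def Simple (c : ClassMap W C) {Z : 𝒱.Obj} (e : C.A (Z.prod Z)) : Prop :=
  C.comp e e = e ∧ ∀ Γ : C.A (Z.prod Z), ∃ q : ℚ,
    C.comp (C.comp e Γ) e - q • e ∈ numSub c (Z.prod Z)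

lemma nd_eq_one [Nontrivial (W.H X)] [∀ n, Module.Finite W.K (M.M (pw X n))] (hN : NilOn c M X) {m : ℕ}
    {e : C.A ((pw X m).prod (pw X m))} (he : Simple c e) (he0 : om c M e ≠ 0) :
    nd (H := fun n => Hm c M (pw X n)) (Cm c M X) m m
      (sand (H := fun n => Hm c M (pw X n)) (Cm c M X) m m (om c M e) (om c M e)) = 1 := by
  have hCat := isCat_Cm c M (X := X)
  set ε : Module.End W.K (Hm c M (pw X m)) := om c M e with hε
  have hεm : ε ∈ Cm c M X m m := om_mem c M e
  have hidem : ε ∘ₗ ε = ε := by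
    rw [hε, ← om_comp, he.1]
  set P := perp (H := fun n => Hm c M (pw X n)) (Cm c M X) m m with hP
  have hnum : ∀ ν ∈ numSub c ((pw X m).prod (pw X m)), om c M ν ∈ P := by
    intro ν hν g hg
    apply trace_span_num c M hN
    induction hg using Submodule.span_induction with
    | mem g hg =>
      obtain ⟨Γ, rfl⟩ := hg
      change om c M Γ ∘ₗ om c M ν ∈ _
      rw [← om_comp]
      exact Submodule.subset_span ⟨_, numSub_comp hν Γ, rfl⟩
    | zero => rw [LinearMap.zero_comp]; exact Submodule.zero_mem _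
    | add f g _ _ hf hg => rw [LinearMap.add_comp]; exact Submodule.add_mem _ hf hg
    | smul r f _ hf => rw [LinearMap.smul_comp]; exact Submodule.smul_mem _ _ hf
  have hspan : (sand (H := fun n => Hm c M (pw X n)) (Cm c M X) m m ε ε).map P.mkQ =
      Submodule.span W.K {P.mkQ ε} := by
    apply le_antisymm
    · rintro _ ⟨_, ⟨d, hd, rfl⟩, rfl⟩
      change P.mkQ (ε ∘ₗ d ∘ₗ ε) ∈ _
      induction hd using Submodule.span_induction with
      | mem d hd =>
        obtain ⟨Γ, rfl⟩ := hd
        obtain ⟨q, hq⟩ := he.2 Γ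
        have h1 : ε ∘ₗ om c M Γ ∘ₗ ε = (q : W.K) • ε +
            om c M (C.comp (C.comp e Γ) e - q • e) := by
          have h2 := om_add c M (C.comp (C.comp e Γ) e - q • e) (q • e)
          rw [sub_add_cancel, om_smul, om_comp, om_comp] at h2
          rw [add_comm]
          exact h2
        rw [h1, map_add, map_smul]
        have h2 : P.mkQ (om c M (C.comp (C.comp e Γ) e - q • e)) = 0 :=
          (Submodule.Quotient.mk_eq_zero P).2 (hnum _ hq)
        rw [h2, add_zero]
        exact Submodule.smul_mem _ _ (Submodule.mem_span_singleton_self _)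
      | zero =>
        rw [LinearMap.zero_comp, LinearMap.comp_zero, map_zero]; exact Submodule.zero_mem _
      | add f g _ _ hf hg =>
        rw [LinearMap.add_comp, LinearMap.comp_add, map_add]; exact Submodule.add_mem _ hf hg
      | smul r f _ hf =>
        rw [LinearMap.smul_comp, LinearMap.comp_smul, map_smul]; exact Submodule.smul_mem _ _ hf
    · rw [Submodule.span_singleton_le_iff_mem]
      refine ⟨ε, ⟨LinearMap.id, hCat.id_mem m, ?_⟩, rfl⟩
      change ε ∘ₗ LinearMap.id ∘ₗ ε = ε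
      rw [LinearMap.id_comp, hidem]
  rw [nd, hspan]
  apply finrank_span_singleton
  intro h0
  have h1 : ε ∈ P := (Submodule.Quotient.mk_eq_zero P).1 h0
  have h2 := h1 LinearMap.id (hCat.id_mem m)
  rw [LinearMap.id_comp] at h2
  have h3 : IsIdempotentElem ε := hidem
  have h4 := Y129.trace_idem h3
  rw [h2] at h4
  have h5 : Module.finrank W.K (LinearMap.range ε) = 0 := by exact_mod_cast h4.symm
  exact he0 (LinearMap.range_eq_bot.1 (Submodule.finrank_eq_zero.1 h5))

theorem closed_rank [IsAlgClosed W.K] [Nontrivial (W.H X)]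
    [∀ n, Module.Finite W.K (M.M (pw X n))] (hS : GoodSet W (powSet X)) (hN : Nil c X) {m : ℕ}
    {e : C.A ((pw X m).prod (pw X m))} (he : Simple c e) (he0 : M.act e ≠ 0) {N : ℝ}
    (h1 : Tendsto (fun n => (Module.finrank W.K (M.M (pw X n)) : ℝ) / numRank W (pw X n)) atTop
      (𝓝 N)) : (Module.finrank W.K (LinearMap.range (W.corr (c.cl _ e))) : ℝ) ≤ N := by
  have hX : X ∈ powSet X := pw_mem_powSet X 0
  have hNO := nilOn_of_nil c M hN
  obtain ⟨x, hx⟩ : ∃ x, M.act e x ≠ 0 := by
    by_contra hcon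
    push Not at hcon
    exact he0 (LinearMap.ext hcon)
  have h2 : om c M e ((0 : W.H (pw X m)), x) ≠ 0 := by
    intro h0
    exact hx (congrArg Prod.snd h0)
  have he0' : om c M e ≠ 0 := by
    intro h0
    rw [h0] at h2
    exact h2 rfl
  have hidem : (om c M e : Module.End W.K (Hm c M (pw X m))) ∘ₗ om c M e = om c M e := by
    rw [← om_comp, he.1]
  have h3 := rank_limit (isExt_mod c M hS hX hNO) (isPowers hS hX)
    (mSys_stable c M (G := fun _ => ⊤) (top_modStable M)) (m := m) (ε := om c M e) (om_mem c M e)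
    hidem (nd_eq_one c M hNO he he0') (by
      intro h0
      have h4 : om c M e ((0 : W.H (pw X m)), x) ∈
          (mSys c M (fun _ => ⊤) m).map (om c M e : Module.End W.K (Hm c M (pw X m))) :=
        ⟨_, ⟨x, trivial, rfl⟩, rfl⟩
      rw [h0] at h4
      exact h2 ((Submodule.mem_bot W.K).1 h4)) (N := N) (by
      simp only [finrank_mSys, finrank_top]
      exact h1)
  rw [prM_om] at h3
  exact h3

lemma range_baseChange' {K V V' : Type*} [Field K] [AddCommGroup V] [Module K V] [AddCommGroup V']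
    [Module K V'] (L : Type*) [Field L] [Algebra K L] (f : V →ₗ[K] V') :
    LinearMap.range (f.baseChange L) = (LinearMap.range f).baseChange L := by
  apply le_antisymm
  · rintro _ ⟨t, rfl⟩
    induction t using TensorProduct.induction_on with
    | zero => rw [map_zero]; exact Submodule.zero_mem _
    | tmul r v =>
      rw [LinearMap.baseChange_tmul]
      exact Submodule.tmul_mem_baseChange_of_mem _ ⟨v, rfl⟩
    | add s t hs ht => rw [map_add]; exact Submodule.add_mem _ hs ht
  · rw [Submodule.baseChange_eq_span, Submodule.span_le]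
    rintro _ ⟨_, ⟨v, rfl⟩, rfl⟩
    exact ⟨(1 : L) ⊗ₜ[K] v, LinearMap.baseChange_tmul _ _ _⟩

lemma finrank_range_base (L : Type v) [Field L] [Algebra W.K L] (e : C.A (X.prod Y)) :
    Module.finrank (baseW W L).K (LinearMap.range ((baseW W L).corr ((c.base L).cl _ e))) =
      Module.finrank W.K (LinearMap.range (W.corr (c.cl _ e))) := by
  have h1 : (baseW W L).corr ((c.base L).cl _ e) = (W.corr (c.cl _ e)).baseChange L :=
    corr_base L (c.cl _ e)
  rw [h1]
  have h2 := finrank_baseChange L (LinearMap.range (W.corr (c.cl (X.prod Y) e)))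
  rw [← range_baseChange'] at h2
  exact h2

/-- The rank bound in terms of real numbers. -/
theorem real_rank [Nontrivial (W.H X)] [∀ n, Module.Finite W.K (M.M (pw X n))]
    (hfull : Full W X) (hN : ¬ NotNil c X) {m : ℕ}
    {e : C.A ((pw X m).prod (pw X m))} (he : Simple c e) (he0 : M.act e ≠ 0) {N : ℝ}
    (h1 : Tendsto (fun n => (Module.finrank W.K (M.M (pw X n)) : ℝ) / numRank W (pw X n)) atTop
      (𝓝 N)) : (Module.finrank W.K (LinearMap.range (W.corr (c.cl _ e))) : ℝ) ≤ N := by
  have hcl : IsAlgClosed (baseW W (AlgebraicClosure W.K)).K :=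
    (inferInstance : IsAlgClosed (AlgebraicClosure W.K))
  have hnt : Nontrivial ((baseW W (AlgebraicClosure W.K)).H X) := nontrivial_base _
  have hF' : GoodSet (baseW W (AlgebraicClosure W.K)) (powSet X) := hfull
  have hfin : ∀ n, Module.Finite (baseW W (AlgebraicClosure W.K)).K
      ((M.base (AlgebraicClosure W.K)).M (pw X n)) := fun n =>
    (inferInstance : Module.Finite (AlgebraicClosure W.K)
      (AlgebraicClosure W.K ⊗[W.K] M.M (pw X n)))
  have hnil : Nil (c.base (AlgebraicClosure W.K)) X := by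
    intro n f hf
    rw [numSub_base] at hf
    by_contra h
    exact hN ⟨_, pw_mem_powSet X n, f, hf, h⟩
  have he' : Simple (c.base (AlgebraicClosure W.K)) e := by
    refine ⟨he.1, fun Γ => ?_⟩
    rw [numSub_base]
    exact he.2 Γ
  have he0' : (M.base (AlgebraicClosure W.K)).act e ≠ 0 := by
    intro h0
    apply he0
    apply LinearMap.ext
    intro x
    have h2 : ((M.act e).baseChange (AlgebraicClosure W.K)) ((1 : AlgebraicClosure W.K) ⊗ₜ[W.K] x) =
        0 := congrArg (fun f => f ((1 : AlgebraicClosure W.K) ⊗ₜ[W.K] x)) h0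
    rw [LinearMap.baseChange_tmul] at h2
    exact Module.FaithfullyFlat.tensorProduct_mk_injective (A := W.K)
      (B := AlgebraicClosure W.K) (M.M (pw X m)) (h2.trans (TensorProduct.tmul_zero _ _).symm)
  have h2 := closed_rank (c.base (AlgebraicClosure W.K)) (M.base (AlgebraicClosure W.K)) hF' hnil
    he' he0' (N := N) (by
      simp only [numRank_base, finrank_base]
      exact h1)
  rw [finrank_range_base] at h2
  exact h2

/-- The rank bound for the index. -/
theorem enat_rank [Nontrivial (W.H X)] (hfull : Full W X)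
    (hinf : NotNil c X → Tendsto (fun n =>
      ((Cardinal.toENat (Module.rank W.K (M.M (pw X n))) : ℕ∞) : ℝ≥0∞) /
        Half.cycRank ops (pw X n)) atTop (𝓝 ((⊤ : ℕ∞) : ℝ≥0∞))) {N : ℕ∞}
    (h1 : Tendsto (fun n => ((Cardinal.toENat (Module.rank W.K (M.M (pw X n))) : ℕ∞) : ℝ≥0∞) /
        Half.cycRank ops (pw X n)) atTop (𝓝 (N : ℝ≥0∞))) {m : ℕ}
    {e : C.A ((pw X m).prod (pw X m))} (he : Simple c e) (he0 : M.act e ≠ 0) :
    (Module.finrank W.K (LinearMap.range (W.corr (c.cl _ e))) : ℕ∞) ≤ N := by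
  by_cases hN' : N = ⊤
  · rw [hN']; exact le_top
  have hpos : ∀ n, 0 < numRank W (pw X n) := numRank_pos c
  have hne : ∀ {L : ℕ∞}, Tendsto (fun n =>
      ((Cardinal.toENat (Module.rank W.K (M.M (pw X n))) : ℕ∞) : ℝ≥0∞) /
        Half.cycRank ops (pw X n)) atTop (𝓝 (L : ℝ≥0∞)) → L = N := fun h2 =>
    ENat.toENNReal_inj.1 (tendsto_nhds_unique h2 h1)
  have hNN : ¬ NotNil c X := fun h => hN' (hne (hinf h)).symm
  have hfin : ∀ n, Module.Finite W.K (M.M (pw X n)) := by
    by_contra hfin
    push Not at hfin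
    obtain ⟨n₀, hn₀⟩ := hfin
    have h2 : ∀ n, n₀ ≤ n → ¬ Module.Finite W.K (M.M (pw X n)) := by
      intro n hn
      induction n, hn using Nat.le_induction with
      | base => exact hn₀
      | succ n _ ih => exact M.not_finite_succ ih
    apply hN'
    refine (hne (L := ⊤) ?_).symm
    rw [ENat.toENNReal_top]
    refine tendsto_const_nhds.congr' ?_
    filter_upwards [eventually_ge_atTop n₀] with n hn
    have h3 : Cardinal.toENat (Module.rank W.K (M.M (pw X n))) = ⊤ := by
      rw [Cardinal.toENat_eq_top]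
      by_contra h3
      push Not at h3
      exact h2 n hn (Module.rank_lt_aleph0_iff.1 h3)
    rw [h3, ENat.toENNReal_top, ENNReal.top_div_of_ne_top (ENNReal.natCast_ne_top _)]
  obtain ⟨N, rfl⟩ := ENat.ne_top_iff_exists.1 hN'
  have h2 : Tendsto (fun n => (Module.finrank W.K (M.M (pw X n)) : ℝ) / numRank W (pw X n)) atTop
      (𝓝 (N : ℝ)) := by
    rw [ENat.toENNReal_coe] at h1
    have h2 := (ENNReal.tendsto_toReal (ENNReal.natCast_ne_top N)).comp h1
    rw [ENNReal.toReal_natCast] at h2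
    refine h2.congr fun n => ?_
    have h0 := hfin n
    rw [Function.comp_apply, ← Module.finrank_eq_rank, Cardinal.toENat_nat, cycRank_eq W,
      ENat.toENNReal_coe, ENNReal.toReal_div, ENNReal.toReal_natCast, ENNReal.toReal_natCast]
  have h3 := real_rank c M hfull hNN he he0 h2
  exact_mod_cast h3

/-! ### The motives -/

variable {c} (σ : SelmerTheory.{u, v, w, y} c)

lemma blochKatoFor_of_act {e : C.A (Z.prod Z)} (h0 : (modD σ).act e = 0) : BlochKatoFor σ e := by
  have hker : ∀ a, (modKer σ).act e a = 0 := by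
    intro a
    have h1 : (modD σ).act e ((a, 0) : (modKer σ).M Z × (modQ σ).M Z) = 0 :=
      congrArg (fun f => f ((a, 0) : (modKer σ).M Z × (modQ σ).M Z)) h0
    exact congrArg Prod.fst h1
  have hquo : ∀ a, (modQ σ).act e a = 0 := by
    intro a
    have h1 : (modD σ).act e ((0, a) : (modKer σ).M Z × (modQ σ).M Z) = 0 :=
      congrArg (fun f => f ((0, a) : (modKer σ).M Z × (modQ σ).M Z)) h0
    exact congrArg Prod.snd h1
  constructor
  · intro n x hx he
    rw [Fintype.linearIndependent_iff]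
    intro r hr
    set x' : Fin n → kerQ (c.cl Z) := fun i => ⟨x i, hx.1 i⟩ with hx'
    set t : W.K ⊗[ℚ] kerQ (c.cl Z) := ∑ i, r i ⊗ₜ[ℚ] x' i with ht
    have h1 : ajK σ Z t = 0 := by
      refine Eq.trans ?_ hr
      exact (map_sum (ext' W.K (σ.aj_add Z)) _ _).trans
        (Finset.sum_congr rfl fun i _ => ext'_tmul _ _ _)
    have h2 := hker ⟨t, h1⟩
    have h3 : (modV c).act e t = 0 := congrArg Subtype.val h2
    have h4 : (modV c).act e t = t := by
      refine (map_sum ((modV c).act e) (fun i => r i ⊗ₜ[ℚ] x' i) Finset.univ).trans ?_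
      apply Finset.sum_congr rfl
      intro i _
      change r i ⊗ₜ[ℚ] (⟨C.act e (x i), act_mem_kerQ Z Z e (x i) (hx.1 i)⟩ : kerQ (c.cl Z)) =
        r i ⊗ₜ[ℚ] x' i
      congr 1
      exact Subtype.ext (he i)
    have h5 : t = 0 := h4.symm.trans h3
    have h6 : LinearIndependent ℚ x' :=
      LinearIndependent.of_comp (kerQ (c.cl Z)).subtype hx.2
    have h7 := Fintype.linearIndependent_iff.1 (indep_tmul (K := W.K) h6) r
    apply h7
    rw [← h5, ht]
    apply Finset.sum_congr rfl
    intro i _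
    rw [TensorProduct.smul_tmul', smul_eq_mul, mul_one]
  · intro y hy
    have key : y ∈ σ.im Z ⊔ σ.sel Z → y ∈ σ.im Z ⊓ σ.sel Z := by
      intro h1
      have h2 := hquo ⟨(σ.im Z ⊓ σ.sel Z).mkQ y, ⟨y, h1, rfl⟩⟩
      have h3 : (σ.im Z ⊓ σ.sel Z).mkQ (σ.corr Z Z e y) = 0 := congrArg Subtype.val h2
      rw [hy] at h3
      exact (Submodule.Quotient.mk_eq_zero _).1 h3
    exact ⟨fun h => (key (Submodule.mem_sup_left h)).2, fun h => (key (Submodule.mem_sup_right h)).1⟩

lemma motiveDim_eq (e : C.A (Z.prod Z)) :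
    motiveDim c e = Module.finrank W.K (LinearMap.range (W.corr (c.cl (Z.prod Z) e))) := by
  have h1 : Submodule.span W.K (Set.range (W.corr (c.cl (Z.prod Z) e))) =
      LinearMap.range (W.corr (c.cl (Z.prod Z) e)) := by
    rw [← LinearMap.coe_range, Submodule.span_eq]
  rw [← h1]
  rfl

/-- **The zero-one law with the bound for motives.** -/
theorem bk_index_motive [Nontrivial (W.H X)] (hD : HomEqNum c X) : ∃ N : ℕ∞,
    HasRatio (fun n => defect σ (pw X n)) (fun n => cycDim c (pw X n)) N ∧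
    (N = 0 ↔ ∀ n, BlochKato σ (pw X n)) ∧
    ∀ (m : ℕ) (e : C.A ((pw X m).prod (pw X m))), ScalarEnd c e →
      BlochKatoFor σ e ∨ (motiveDim c e : ℕ∞) ≤ N := by
  obtain ⟨N, h1, h2⟩ := bk_index σ hD
  refine ⟨N, h1, h2, fun m e he => ?_⟩
  by_cases h0 : (modD σ).act e = 0
  · exact Or.inl (blochKatoFor_of_act σ h0)
  · right
    rw [motiveDim_eq]
    have hfull := Pool.Agent.Y133.AJ.full_of_homIsNum hD
    have h3 := (ratio_iff c (b := fun n => defect σ (pw X n))).1 h1
    simp only [← rank_modD] at h3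
    refine enat_rank c (modD σ) hfull ?_ h3 (e := e) ⟨he.1, fun Γ => he.2 Γ⟩ h0
    intro hN
    have h3 := sys_top c (Pool.Agent.Y133.AJ.ajSub_isSys (toAJ σ) hD) hfull hN
    refine tendsto_of_tendsto_of_tendsto_of_le_of_le h3 tendsto_const_nhds (fun n => ?_)
      (fun n => by rw [ENat.toENNReal_top]; exact le_top)
    apply ENNReal.div_le_div_right
    rw [ENat.toENNReal_le, rank_modD]
    exact rank_le_defect σ (pw X n)

end Pool.Agent.Y133.BK
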